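import Pool.Agent.Q131.SE.Fin

/-!
# Compactly supported symplectomorphisms whose differential may have the eigenvalue `-1`

Let `G` be the group of compactly supported symplectomorphisms of `ℝ^{2n}`. An element `φ` of `G`
such that no `dφ(z)` has a real eigenvalue `< -1`, and such that the eigenspaces of `dφ(z)` for the
eigenvalue `-1` are at most one-dimensional, is joined to the identity in `G`. The same holds for
the eigenvalues of `P (dφ(z) - 1)`, if `P` is a linear map with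
`ω(Pu, v) + ω(u, Pv) = ω(u, v)`, and for pairs of elements of `G`.
-/

set_option autoImplicit false

open Set Filter Topology

namespace Pool.Agent.Results.MP_ec5dc5_gt.CorankOneAtMinusOne

open Pool.Agent.Q130.SC.Sym

/-- `P + P^ω = 1`, where `P^ω` is the adjoint of `P` with respect to the symplectic form. Examples:
`P = 1/2`, and the projection onto one summand of a decomposition of `ℝ^{2n}` into two Lagrangian
subspaces. -/
def IsHalf {n : ℕ} (P : R2 n →ₗ[ℝ] R2 n) : Prop :=
  ∀ u v, omega (P u) v + omega u (P v) = omega u v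

/-- `S` is contained in a line through the origin (or in `{0}`) -/
def OnLine {n : ℕ} (S : Set (R2 n)) : Prop := ∃ x, ∀ u ∈ S, ∃ c : ℝ, u = c • x

/-- with `T(z) = dφ(z) dψ(z)⁻¹`: no `P (T(z) - 1)` has a real eigenvalue `< -1`, and the eigenspaces
for the eigenvalue `-1` are at most one-dimensional -/
def WeaklyTransverse {n : ℕ} (P : R2 n →ₗ[ℝ] R2 n) (φ ψ : SympCt n) : Prop :=
  (∀ z u, ∀ μ : ℝ, μ < -1 → P (der φ.map z u - der ψ.map z u) = μ • der ψ.map z u → u = 0) ∧
    ∀ z, OnLine {u | P (der φ.map z u - der ψ.map z u) = -der ψ.map z u}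

theorem isHalf_half (n : ℕ) : IsHalf (n := n) ((1 / 2 : ℝ) • LinearMap.id) := by
  intro u v
  have e1 : omega (((1 / 2 : ℝ) • (LinearMap.id : R2 n →ₗ[ℝ] R2 n)) u) v = 1 / 2 * omega u v :=
    Pool.Agent.Q130.SC.omega_smul_left (1 / 2) u v
  have e2 : omega u (((1 / 2 : ℝ) • (LinearMap.id : R2 n →ₗ[ℝ] R2 n)) v) = 1 / 2 * omega u v :=
    Pool.Agent.Q130.SC.omega_smul_right (1 / 2) u v
  rw [e1, e2]; ring

theorem joined_general {n : ℕ} (P : R2 n →ₗ[ℝ] R2 n) (hP : IsHalf P) (φ ψ : SympCt n)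
    (h : WeaklyTransverse P φ ψ) : Joined φ ψ := by
  have h1 := Pool.Agent.Q131.SE.iso_pair (LinearMap.toContinuousLinearMap P) hP φ ψ
    (fun z u μ hμ hu => h.1 z u μ hμ hu) (fun z => h.2 z)
  exact h1.joined.symm

theorem half_eq {n : ℕ} (a b : R2 n) (μ : ℝ)
    (h : ((1 / 2 : ℝ) • (LinearMap.id : R2 n →ₗ[ℝ] R2 n)) (a - b) = μ • b) :
    a = (1 + 2 * μ) • b := by
  have h1 : (1 / 2 : ℝ) • (a - b) = μ • b := h
  have h2 : (2 : ℝ) • ((1 / 2 : ℝ) • (a - b)) = (2 : ℝ) • (μ • b) := by rw [h1]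
  rw [smul_smul, smul_smul] at h2
  norm_num at h2
  rw [add_smul, one_smul, ← h2]; abel

theorem joined_half {n : ℕ} (φ ψ : SympCt n)
    (h1 : ∀ z u, ∀ α : ℝ, 1 < α → der φ.map z u = -(α • der ψ.map z u) → u = 0)
    (h2 : ∀ z, OnLine {u | der φ.map z u = -der ψ.map z u}) : Joined φ ψ := by
  refine joined_general _ (isHalf_half n) φ ψ ⟨fun z u μ hμ hu => ?_, fun z => ?_⟩
  · refine h1 z u (-(1 + 2 * μ)) (by linarith) ?_
    rw [neg_smul, neg_neg]
    exact half_eq _ _ μ hu
  · obtain ⟨x, hx⟩ := h2 z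
    refine ⟨x, fun u hu => hx u ?_⟩
    have hu' : ((1 / 2 : ℝ) • (LinearMap.id : R2 n →ₗ[ℝ] R2 n)) (der φ.map z u - der ψ.map z u) =
        (-1 : ℝ) • der ψ.map z u := by
      rw [neg_one_smul]; exact hu
    have h3 := half_eq _ _ _ hu'
    change der φ.map z u = -der ψ.map z u
    rw [h3]
    norm_num

theorem der_one {n : ℕ} (z u : R2 n) : der (1 : SympCt n).map z u = u := by
  change fderiv ℝ (id : R2 n → R2 n) z u = u
  rw [fderiv_id]; rfl

theorem joined_one {n : ℕ} (φ : SympCt n)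
    (h1 : ∀ z u, ∀ μ : ℝ, μ < -1 → der φ.map z u = μ • u → u = 0)
    (h2 : ∀ z, OnLine {u | der φ.map z u = -u}) : Joined 1 φ := by
  refine (joined_half φ 1 (fun z u α hα hu => ?_) (fun z => ?_)).symm
  · rw [der_one, ← neg_smul] at hu
    exact h1 z u (-α) (by linarith) hu
  · obtain ⟨x, hx⟩ := h2 z
    refine ⟨x, fun u hu => hx u ?_⟩
    have hu' : der φ.map z u = -der (1 : SympCt n).map z u := hu
    rw [der_one] at hu'
    exact hu'

theorem noBig_of_lipschitz {n : ℕ} (φ : SympCt n) (N : Seminorm ℝ (R2 n))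
    (hN : ∀ x, N x = 0 → x = 0)
    (h : ∀ z w, N ((φ.map z - z) - (φ.map w - w)) ≤ 2 * N (z - w)) (z u : R2 n) (μ : ℝ)
    (hμ : μ < -1) (hu : der φ.map z u = μ • u) : u = 0 := by
  have hNc : Continuous N := N.convexOn.locallyLipschitz.continuous
  have hd : HasFDerivAt (fun z => φ.map z - z) (fderiv ℝ φ.map z - ContinuousLinearMap.id ℝ (R2 n))
      z := ((φ.smooth.differentiable (by simp)) z).hasFDerivAt.sub (hasFDerivAt_id z)
  have h1 := (hd.hasLineDerivAt u).tendsto_slope_zero_right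
  have h2 : Tendsto (fun t : ℝ => N (t⁻¹ • ((φ.map (z + t • u) - (z + t • u)) - (φ.map z - z))))
      (𝓝[>] 0) (𝓝 (N ((fderiv ℝ φ.map z - ContinuousLinearMap.id ℝ (R2 n)) u))) :=
    (hNc.tendsto _).comp h1
  have h3 : N ((fderiv ℝ φ.map z - ContinuousLinearMap.id ℝ (R2 n)) u) ≤ 2 * N u := by
    refine le_of_tendsto h2 ?_
    filter_upwards [self_mem_nhdsWithin] with t ht
    have ht : 0 < t := ht
    rw [map_smul_eq_mul, Real.norm_eq_abs, abs_of_pos (inv_pos.2 ht)]
    have h4 := h (z + t • u) z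
    rw [add_sub_cancel_left, map_smul_eq_mul, Real.norm_eq_abs, abs_of_pos ht] at h4
    rw [inv_mul_le_iff₀ ht]
    linarith
  have h5 : (fderiv ℝ φ.map z - ContinuousLinearMap.id ℝ (R2 n)) u = (μ - 1) • u := by
    rw [sub_smul, one_smul, ← hu]; rfl
  rw [h5, map_smul_eq_mul, Real.norm_eq_abs, abs_of_neg (by linarith)] at h3
  have h6 : 0 ≤ N u := apply_nonneg N u
  refine hN u (le_antisymm ?_ h6)
  nlinarith

/-- **Theorem.** Let `G` be the group of compactly supported symplectomorphisms of `ℝ^{2n}`.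
* Let `P + P^ω = 1`, and let `φ, ψ ∈ G`. If, for `T(z) = dφ(z) dψ(z)⁻¹`, no `P (T(z) - 1)` has a
  real eigenvalue `< -1`, and the eigenspaces of these maps for the eigenvalue `-1` are at most
  one-dimensional, then `φ` and `ψ` are joined in `G`.
* If `dφ(z) + α dψ(z)` is injective for all `z` and `α > 1`, and the kernels of the maps
  `dφ(z) + dψ(z)` are at most one-dimensional, then `φ` and `ψ` are joined in `G`.
* If no `dφ(z)` has a real eigenvalue `< -1`, and the eigenspaces of `dφ(z)` for the eigenvalue `-1`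
  are at most one-dimensional, then `φ` is joined to the identity in `G`.
* This is the case if `φ - id` is Lipschitz with the constant `2` for some norm, and the
  eigenspaces of `dφ(z)` for the eigenvalue `-1` are at most one-dimensional. -/
theorem result (n : ℕ) :
    (∀ P : R2 n →ₗ[ℝ] R2 n, IsHalf P → ∀ φ ψ : SympCt n, WeaklyTransverse P φ ψ → Joined φ ψ) ∧
    (∀ φ ψ : SympCt n,
      (∀ z u, ∀ α : ℝ, 1 < α → der φ.map z u = -(α • der ψ.map z u) → u = 0) →
      (∀ z, OnLine {u | der φ.map z u = -der ψ.map z u}) → Joined φ ψ) ∧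
    (∀ φ : SympCt n, (∀ z u, ∀ μ : ℝ, μ < -1 → der φ.map z u = μ • u → u = 0) →
      (∀ z, OnLine {u | der φ.map z u = -u}) → Joined 1 φ) ∧
    (∀ φ : SympCt n, ∀ N : Seminorm ℝ (R2 n), (∀ x, N x = 0 → x = 0) →
      (∀ z w, N ((φ.map z - z) - (φ.map w - w)) ≤ 2 * N (z - w)) →
      (∀ z, OnLine {u | der φ.map z u = -u}) → Joined 1 φ) :=
  ⟨joined_general, joined_half, joined_one, fun φ N hN h h2 =>
    joined_one φ (noBig_of_lipschitz φ N hN h) h2⟩

end Pool.Agent.Results.MP_ec5dc5_gt.CorankOneAtMinusOne
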