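import Pool.Agent.Q130.SC.Grp

/-!
# Compactly supported symplectomorphisms whose differential has no negative real eigenvalue

A compactly supported symplectomorphism `φ` of `ℝ^{2n}` such that, for some linear map `P` with
`ω(Pu, v) + ω(u, Pv) = ω(u, v)`, no `P (dφ(z) - 1)` has a real eigenvalue `≤ -1` is isotopic to the
identity. For `P = 1/2` the condition is that no `dφ(z)` has a negative real eigenvalue. The maps with
this last property generate the path component of the identity.
-/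

set_option autoImplicit false

open Set Filter Topology

namespace Pool.Agent.Results.MP_ec5dc5_gt.EigenvalueCriterion

open Pool.Agent.Q130.SC.Sym

/-- `P + P^ω = 1`, where `P^ω` is the adjoint of `P` with respect to the symplectic form. Examples:
`P = 1/2`, and the projection onto one summand of a decomposition of `ℝ^{2n}` into two Lagrangian
subspaces. -/
def IsHalf {n : ℕ} (P : R2 n →ₗ[ℝ] R2 n) : Prop :=
  ∀ u v, omega (P u) v + omega u (P v) = omega u v

/-- no `P (dφ(z) - 1)` has a real eigenvalue `≤ -1` -/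
def Transverse {n : ℕ} (P : R2 n →ₗ[ℝ] R2 n) (φ : SympCt n) : Prop :=
  ∀ z u, ∀ μ : ℝ, μ ≤ -1 → P (der φ.map z u - u) = μ • u → u = 0

/-- no `dφ(z)` has a real eigenvalue `≤ -1` (equivalently, as `dφ(z)` is symplectic, no negative
real eigenvalue) -/
def NoNeg {n : ℕ} (φ : SympCt n) : Prop :=
  ∀ z u, ∀ μ : ℝ, μ ≤ -1 → der φ.map z u = μ • u → u = 0

theorem isHalf_half (n : ℕ) : IsHalf (n := n) ((1 / 2 : ℝ) • LinearMap.id) := by
  intro u v
  have e1 : omega (((1 / 2 : ℝ) • (LinearMap.id : R2 n →ₗ[ℝ] R2 n)) u) v = 1 / 2 * omega u v :=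
    Pool.Agent.Q130.SC.omega_smul_left (1 / 2) u v
  have e2 : omega u (((1 / 2 : ℝ) • (LinearMap.id : R2 n →ₗ[ℝ] R2 n)) v) = 1 / 2 * omega u v :=
    Pool.Agent.Q130.SC.omega_smul_right (1 / 2) u v
  rw [e1, e2]; ring

theorem transverse_half {n : ℕ} (φ : SympCt n) (h : NoNeg φ) :
    Transverse ((1 / 2 : ℝ) • LinearMap.id) φ := by
  intro z u μ hμ hu
  refine h z u (1 + 2 * μ) (by linarith) ?_
  have h1 : (1 / 2 : ℝ) • (der φ.map z u - u) = μ • u := hu
  have h2 : (2 : ℝ) • ((1 / 2 : ℝ) • (der φ.map z u - u)) = (2 : ℝ) • (μ • u) := by rw [h1]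
  rw [smul_smul, smul_smul] at h2
  norm_num at h2
  rw [add_smul, one_smul, ← h2]; abel

theorem iso_noNeg {n : ℕ} (φ : SympCt n) (h : NoNeg φ) : Iso 1 φ :=
  iso_of_good _ (isHalf_half n) φ (transverse_half φ h)

theorem noNeg_of_lipschitz {n : ℕ} (φ : SympCt n) (N : Seminorm ℝ (R2 n))
    (hN : ∀ x, N x = 0 → x = 0) (c : ℝ) (hc : c < 2)
    (h : ∀ z w, N ((φ.map z - z) - (φ.map w - w)) ≤ c * N (z - w)) : NoNeg φ := by
  intro z u μ hμ hu
  have hNc : Continuous N := N.convexOn.locallyLipschitz.continuous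
  have hd : HasFDerivAt (fun z => φ.map z - z) (fderiv ℝ φ.map z - ContinuousLinearMap.id ℝ (R2 n))
      z := ((φ.smooth.differentiable (by simp)) z).hasFDerivAt.sub (hasFDerivAt_id z)
  have h1 := (hd.hasLineDerivAt u).tendsto_slope_zero_right
  have h2 : Tendsto (fun t : ℝ => N (t⁻¹ • ((φ.map (z + t • u) - (z + t • u)) - (φ.map z - z))))
      (𝓝[>] 0) (𝓝 (N ((fderiv ℝ φ.map z - ContinuousLinearMap.id ℝ (R2 n)) u))) :=
    (hNc.tendsto _).comp h1
  have h3 : N ((fderiv ℝ φ.map z - ContinuousLinearMap.id ℝ (R2 n)) u) ≤ c * N u := by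
    refine le_of_tendsto h2 ?_
    filter_upwards [self_mem_nhdsWithin] with t ht
    have ht : 0 < t := ht
    rw [map_smul_eq_mul, Real.norm_eq_abs, abs_of_pos (inv_pos.2 ht)]
    have h4 := h (z + t • u) z
    rw [add_sub_cancel_left, map_smul_eq_mul, Real.norm_eq_abs, abs_of_pos ht] at h4
    rw [inv_mul_le_iff₀ ht]
    linarith
  have h5 : (fderiv ℝ φ.map z - ContinuousLinearMap.id ℝ (R2 n)) u = (μ - 1) • u := by
    rw [sub_smul, one_smul, ← hu]; rfl
  rw [h5, map_smul_eq_mul, Real.norm_eq_abs, abs_of_neg (by linarith)] at h3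
  have h6 : 0 ≤ N u := apply_nonneg N u
  refine hN u (le_antisymm ?_ h6)
  nlinarith

/-- **Theorem.** Let `G` be the group of compactly supported symplectomorphisms of `ℝ^{2n}`.
* If `P + P^ω = 1` and no `P (dφ(z) - 1)` has a real eigenvalue `≤ -1`, then `φ ∈ G` is joined to
  the identity in `G`.
* If no `dφ(z)` has a real eigenvalue `≤ -1`, then `φ` is joined to the identity in `G`.
* If for some norm `φ - id` is Lipschitz with a constant smaller than `2`, then `φ` is joined to the
  identity in `G`.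
* The path component of the identity of `G` is the subgroup generated by the `φ` such that no
  `dφ(z)` has a real eigenvalue `≤ -1`.
* `G` is path-connected if and only if these maps generate `G`. -/
theorem result (n : ℕ) :
    (∀ P : R2 n →ₗ[ℝ] R2 n, IsHalf P → ∀ φ : SympCt n, Transverse P φ → Joined 1 φ) ∧
    (∀ φ : SympCt n, NoNeg φ → Joined 1 φ) ∧
    (∀ φ : SympCt n, ∀ N : Seminorm ℝ (R2 n), (∀ x, N x = 0 → x = 0) → ∀ c : ℝ, c < 2 →
      (∀ z w, N ((φ.map z - z) - (φ.map w - w)) ≤ c * N (z - w)) → Joined 1 φ) ∧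
    pathComponent (1 : SympCt n) = (Subgroup.closure {φ : SympCt n | NoNeg φ} : Set (SympCt n)) ∧
    (PathConnectedSpace (SympCt n) ↔ Subgroup.closure {φ : SympCt n | NoNeg φ} = ⊤) := by
  have h4 : pathComponent (1 : SympCt n) =
      (Subgroup.closure {φ : SympCt n | NoNeg φ} : Set (SympCt n)) := by
    refine pathComponent_eq _ (fun φ hφ => iso_noNeg φ hφ) (ε := 1 / 2) (by norm_num) fun φ hφ => ?_
    exact fun z u μ hμ hu => noNeg_of_close (by norm_num) φ hφ z u μ (by linarith) hu
  refine ⟨fun P hP φ hφ => (iso_of_good P hP φ hφ).joined, fun φ hφ => (iso_noNeg φ hφ).joined,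
    fun φ N hN c hc h => (iso_noNeg φ (noNeg_of_lipschitz φ N hN c hc h)).joined, h4, ?_⟩
  constructor
  · intro h
    rw [← Subgroup.coe_eq_univ, ← h4]
    exact eq_univ_of_forall fun φ => PathConnectedSpace.joined 1 φ
  · intro h
    rw [← Subgroup.coe_eq_univ, ← h4] at h
    have h5 : ∀ φ : SympCt n, Joined 1 φ := fun φ => by
      have : φ ∈ pathComponent (1 : SympCt n) := by rw [h]; trivial
      exact this
    exact ⟨⟨1⟩, fun φ ψ => (h5 φ).symm.trans (h5 ψ)⟩

end Pool.Agent.Results.MP_ec5dc5_gt.EigenvalueCriterion
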