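import Pool.Agent.Q130.SC.Loc

/-!
# The group of path components of `Symp_ct(ℝ^{2n})`: commutativity and localisation

The group of path components is abelian, every component has an element supported in any given
nonempty open set, and two symplectomorphisms supported in a star-shaped open set `U` which lie in
the same path component are joined by a smooth isotopy supported in `U`.
-/

set_option autoImplicit false

open Set Filter Topology

namespace Pool.Agent.Results.MP_ec5dc5_gt.StructureOfComponents

open Pool.Agent.Q130.SC.Sym

/-- `φ` is the identity off a compact subset of `U` -/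
def SuppIn {n : ℕ} (U : Set (R2 n)) (φ : SympCt n) : Prop :=
  ∃ K : Set (R2 n), IsCompact K ∧ K ⊆ U ∧ ∀ z, z ∉ K → φ.map z = z

/-- **Theorem.** Let `G` be the group of compactly supported symplectomorphisms of `ℝ^{2n}`.
* The group of path components of `G` is abelian: `φψ` and `ψφ` are in the same component.
* For every nonempty open set `U`, every component contains an element supported in `U`.
* Let `U` be open and star-shaped with respect to one of its points. Two elements supported in `U`
  are joined in `G` if and only if they are joined by a smooth isotopy supported in a compact subset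
  of `U`. In particular (`U = ℝ^{2n}`) two elements of `G` which are joined by a path are joined by a
  smooth isotopy, and the components of the corresponding groups of all open balls are the same. -/
theorem result (n : ℕ) :
    (∀ φ ψ : SympCt n, Joined (φ * ψ) (ψ * φ)) ∧
    (∀ U : Set (R2 n), IsOpen U → U.Nonempty → ∀ φ : SympCt n, ∃ ψ : SympCt n,
      SuppIn U ψ ∧ Joined φ ψ) ∧
    (∀ U : Set (R2 n), IsOpen U → ∀ c ∈ U, StarConvex ℝ c U → ∀ φ ψ : SympCt n,
      SuppIn U φ → SuppIn U ψ → (Joined φ ψ ↔ IsoIn U φ ψ)) := by
  refine ⟨fun φ ψ => (iso_comm φ ψ).joined, ?_, ?_⟩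
  · rintro U hU ⟨c, hc⟩ φ
    obtain ⟨ψ, h, hψ⟩ := exists_iso_in hU hc φ
    exact ⟨ψ, hψ, h.joined⟩
  · intro U hU c hc hstar φ ψ hφ hψ
    refine ⟨fun h => isoIn_of_iso hU hc (fun z hz s hs0 hs1 => ?_) hφ hψ
      ((joined_iff_iso φ ψ).1 h), fun h => h.iso.joined⟩
    have h1 := hstar hz (a := 1 - s) (b := s) (by linarith) hs0 (by ring)
    have h2 : (1 - s) • c + s • z = c + s • (z - c) := by
      rw [sub_smul, one_smul, smul_sub]; abel
    rwa [h2] at h1

end Pool.Agent.Results.MP_ec5dc5_gt.StructureOfComponents
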